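import Mathlib

/-!
Binary digits: merging a code sequence with the digits of a real, and the size of the set of reals
whose merged expansion lies in a small set.
-/

set_option autoImplicit false

open Set Real MeasureTheory Filter Topology
open scoped ENNReal NNReal

namespace Pool.Agent.K1H75.Gauge

/-- sequences of binary digits -/
abbrev Bin : Type := ℕ → Fin 2

/-- the integer with the first `n` binary digits of `b` -/
def pre (b : Bin) : ℕ → ℕ
  | 0 => 0
  | n + 1 => 2 * pre b n + (b n : ℕ)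

theorem pre_inj {b b' : Bin} : ∀ {n : ℕ}, pre b n = pre b' n → ∀ i < n, b i = b' i := by
  intro n
  induction n with
  | zero => intro _ i hi; omega
  | succ n ih =>
    intro h i hi
    simp only [pre] at h
    have h1 : (b n : ℕ) < 2 := (b n).2
    have h2 : (b' n : ℕ) < 2 := (b' n).2
    have h3 : pre b n = pre b' n := by omega
    have h4 : (b n : ℕ) = (b' n : ℕ) := by omega
    rcases Nat.lt_succ_iff_lt_or_eq.1 hi with h5 | h5
    · exact ih h3 i h5
    · subst h5; exact Fin.ext h4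

theorem pre_congr {b b' : Bin} : ∀ {n : ℕ}, (∀ i < n, b i = b' i) → pre b n = pre b' n := by
  intro n
  induction n with
  | zero => intro _; rfl
  | succ n ih =>
    intro h
    simp only [pre]
    rw [ih (fun i hi => h i (by omega)), h n (by omega)]

theorem sum_pre (b : Bin) (n : ℕ) :
    ∑ i ∈ Finset.range n, ofDigitsTerm b i = (pre b n : ℝ) * ((2 : ℝ) ^ n)⁻¹ := by
  induction n with
  | zero => simp [pre]
  | succ n ih =>
    rw [Finset.sum_range_succ, ih]
    simp only [ofDigitsTerm, pre]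
    push_cast
    field_simp
    ring

theorem ofDigits_pre (b : Bin) (n : ℕ) :
    ofDigits b = ((pre b n : ℝ) + ofDigits (fun i => b (i + n))) * ((2 : ℝ) ^ n)⁻¹ := by
  rw [ofDigits_eq_sum_add_ofDigits b n, sum_pre]
  push_cast
  ring

/-- the dyadic rationals -/
def dyad : Set ℝ := range fun p : ℕ × ℕ => (p.1 : ℝ) * ((2 : ℝ) ^ p.2)⁻¹

theorem dyad_countable : dyad.Countable := countable_range _

theorem ofDigits_inj {b b' : Bin} (h : ofDigits b = ofDigits b') (hne : b ≠ b') :
    ofDigits b ∈ dyad := by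
  classical
  -- first difference
  have hex : ∃ n, b n ≠ b' n := Function.ne_iff.1 hne
  set n := Nat.find hex with hn
  have h1 : b n ≠ b' n := Nat.find_spec hex
  have h2 : ∀ i < n, b i = b' i := fun i hi => by
    by_contra hcon; exact Nat.find_min hex hi hcon
  have key : ∀ x y : Bin, (∀ i < n, x i = y i) → x n = 1 → y n = 0 → ofDigits x = ofDigits y →
      ofDigits x ∈ dyad := by
    intro x y hxy hx hy he
    have e1 : pre x (n + 1) = pre y (n + 1) + 1 := by
      simp only [pre, pre_congr hxy, hx, hy]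
      simp
    have e2 := ofDigits_pre x (n + 1)
    have e3 := ofDigits_pre y (n + 1)
    have e4 := ofDigits_nonneg (fun i => x (i + (n + 1)))
    have e5 := ofDigits_le_one (fun i => y (i + (n + 1)))
    have hp : (0 : ℝ) < ((2 : ℝ) ^ (n + 1))⁻¹ := by positivity
    have e6 : ((pre x (n + 1) : ℝ) + ofDigits (fun i => x (i + (n + 1)))) =
        ((pre y (n + 1) : ℝ) + ofDigits (fun i => y (i + (n + 1)))) := by
      have : ((pre x (n + 1) : ℝ) + ofDigits (fun i => x (i + (n + 1)))) * ((2 : ℝ) ^ (n + 1))⁻¹ =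
        ((pre y (n + 1) : ℝ) + ofDigits (fun i => y (i + (n + 1)))) * ((2 : ℝ) ^ (n + 1))⁻¹ := by
        rw [← e2, ← e3, he]
      exact mul_right_cancel₀ hp.ne' this
    have e7 : ofDigits (fun i => x (i + (n + 1))) = 0 := by
      rw [e1] at e6
      push_cast at e6
      linarith
    refine ⟨(pre x (n + 1), n + 1), ?_⟩
    simp only
    rw [e2, e7, add_zero]
  have h3 : (b n = 1 ∧ b' n = 0) ∨ (b n = 0 ∧ b' n = 1) := by
    have a1 : ∀ x y : Fin 2, x ≠ y → (x = 1 ∧ y = 0) ∨ (x = 0 ∧ y = 1) := by decide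
    exact a1 _ _ h1
  rcases h3 with ⟨h4, h5⟩ | ⟨h4, h5⟩
  · exact key b b' h2 h4 h5 h
  · rw [h]
    exact key b' b (fun i hi => (h2 i hi).symm) h5 h4 h.symm

theorem pre_near {b b' : Bin} {n : ℕ} (h : |ofDigits b - ofDigits b'| ≤ ((2 : ℝ) ^ n)⁻¹) :
    pre b n ≤ pre b' n + 2 := by
  by_contra hcon
  have h1 : pre b' n + 3 ≤ pre b n := by omega
  have h2 : ((pre b' n : ℝ) + 3) ≤ (pre b n : ℝ) := by exact_mod_cast h1
  have e2 := ofDigits_pre b n
  have e3 := ofDigits_pre b' n
  have e4 := ofDigits_nonneg (fun i => b (i + n))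
  have e5 := ofDigits_le_one (fun i => b' (i + n))
  have hp : (0 : ℝ) < ((2 : ℝ) ^ n)⁻¹ := by positivity
  have h3 := le_of_abs_le h
  have h4 : ofDigits b - ofDigits b' = (((pre b n : ℝ) - pre b' n) +
      (ofDigits (fun i => b (i + n)) - ofDigits (fun i => b' (i + n)))) * ((2 : ℝ) ^ n)⁻¹ := by
    rw [e2, e3]; ring
  rw [h4] at h3
  have h5 : (2 : ℝ) ≤ ((pre b n : ℝ) - pre b' n) +
      (ofDigits (fun i => b (i + n)) - ofDigits (fun i => b' (i + n))) := by linarith
  nlinarith

/-- the number of positions below `n` that do not carry code bits -/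
noncomputable def cnt (φ : ℕ → ℕ) (n : ℕ) : ℕ := by
  classical exact Nat.count (fun m => m ∉ range φ) n

open Classical in
/-- merge the code `c` (at the positions `φ j`) with the digits `z` (at the other positions) -/
noncomputable def mrg (φ : ℕ → ℕ) (c z : Bin) : Bin := fun n =>
  if h : ∃ j, φ j = n then c h.choose else z (cnt φ n)

theorem mrg_code {φ : ℕ → ℕ} (hφ : Function.Injective φ) (c z : Bin) (j : ℕ) :
    mrg φ c z (φ j) = c j := by
  have h : ∃ i, φ i = φ j := ⟨j, rfl⟩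
  unfold mrg
  rw [dif_pos h]
  congr 1
  exact hφ h.choose_spec

theorem mrg_digit {φ : ℕ → ℕ} (c z : Bin) {n : ℕ} (hn : n ∉ range φ) :
    mrg φ c z n = z (cnt φ n) := by
  unfold mrg
  rw [dif_neg (by simpa using hn)]

theorem digits_of_agree {φ : ℕ → ℕ} (hinf : {m | m ∉ range φ}.Infinite) {c c' z z' : Bin} {n : ℕ}
    (h : ∀ i < n, mrg φ c z i = mrg φ c' z' i) : ∀ i < cnt φ n, z i = z' i := by
  classical
  intro i hi
  set p : ℕ → Prop := fun m => m ∉ range φ with hp
  have hinf' : {m | p m}.Infinite := hinf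
  have h1 : Nat.nth p i < n := by
    apply Nat.nth_lt_of_lt_count
    have : cnt φ n = Nat.count p n := by
      unfold cnt
      congr
    rw [← this]; exact hi
  have h2 : p (Nat.nth p i) := Nat.nth_mem_of_infinite hinf' i
  have h3 : cnt φ (Nat.nth p i) = i := by
    have : cnt φ (Nat.nth p i) = Nat.count p (Nat.nth p i) := by
      unfold cnt
      congr
    rw [this, Nat.count_nth_of_infinite hinf']
  have h4 := h _ h1
  rw [mrg_digit c z h2, mrg_digit c' z' h2, h3] at h4
  exact h4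

/-- The reals whose merged expansion lies in a set of diameter at most `2^{-n}` form a small set. -/
theorem vol_le {φ : ℕ → ℕ} (hinf : {m | m ∉ range φ}.Infinite) (n : ℕ) (U : Set ℝ)
    (hU : ∀ x ∈ U, ∀ y ∈ U, |x - y| ≤ ((2 : ℝ) ^ n)⁻¹) :
    volume {y : ℝ | ∃ c z : Bin, ofDigits z = y ∧ ofDigits (mrg φ c z) ∈ U} ≤
      5 * ENNReal.ofReal (((2 : ℝ) ^ cnt φ n)⁻¹) := by
  classical
  set V : Set ℝ := {y : ℝ | ∃ c z : Bin, ofDigits z = y ∧ ofDigits (mrg φ c z) ∈ U} with hV
  let W : ℕ → Set ℝ := fun q => {y : ℝ | ∃ c z : Bin, ofDigits z = y ∧ pre (mrg φ c z) n = q}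
  have hW : ∀ q, volume (W q) ≤ ENNReal.ofReal (((2 : ℝ) ^ cnt φ n)⁻¹) := by
    intro q
    refine (Real.volume_le_diam _).trans (Metric.ediam_le ?_)
    rintro _ ⟨c, z, rfl, h1⟩ _ ⟨c', z', rfl, h2⟩
    rw [edist_dist, Real.dist_eq]
    refine ENNReal.ofReal_le_ofReal ?_
    have h3 := digits_of_agree hinf (pre_inj (h1.trans h2.symm))
    exact_mod_cast abs_ofDigits_sub_ofDigits_le h3
  rcases V.eq_empty_or_nonempty with h0 | ⟨y0, c0, z0, rfl, h0⟩
  · rw [h0]; simp
  set p := pre (mrg φ c0 z0) n with hp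
  have hsub : V ⊆ W (p - 2) ∪ (W (p - 1) ∪ (W p ∪ (W (p + 1) ∪ W (p + 2)))) := by
    rintro _ ⟨c, z, rfl, h1⟩
    have h2 := pre_near (hU _ h1 _ h0)
    have h3 := pre_near (hU _ h0 _ h1)
    have h4 : pre (mrg φ c z) n = p - 2 ∨ pre (mrg φ c z) n = p - 1 ∨ pre (mrg φ c z) n = p ∨
        pre (mrg φ c z) n = p + 1 ∨ pre (mrg φ c z) n = p + 2 := by omega
    rcases h4 with h4 | h4 | h4 | h4 | h4
    · exact Or.inl ⟨c, z, rfl, h4⟩
    · exact Or.inr (Or.inl ⟨c, z, rfl, h4⟩)
    · exact Or.inr (Or.inr (Or.inl ⟨c, z, rfl, h4⟩))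
    · exact Or.inr (Or.inr (Or.inr (Or.inl ⟨c, z, rfl, h4⟩)))
    · exact Or.inr (Or.inr (Or.inr (Or.inr ⟨c, z, rfl, h4⟩)))
  refine (measure_mono hsub).trans ?_
  refine (measure_union_le _ _).trans ?_
  refine (add_le_add (hW _) ((measure_union_le _ _).trans (add_le_add (hW _)
    ((measure_union_le _ _).trans (add_le_add (hW _) ((measure_union_le _ _).trans
      (add_le_add (hW _) (hW _)))))))).trans ?_
  apply le_of_eq
  ring

end Pool.Agent.K1H75.Gauge
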