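import Pool.Agent.K1H75.Gauge.Null

/-!
Hausdorff measures of gauge functions on the line.
-/

set_option autoImplicit false

open Set MeasureTheory Filter Topology
open scoped ENNReal NNReal

namespace Pool.Agent.K1H75.Gauge

/-- A gauge function: a nondecreasing right-continuous `f : [0,∞) → [0,∞)` with `f 0 = 0` and
`f t > 0` for `t > 0`. -/
structure IsGauge (f : ℝ≥0 → ℝ≥0) : Prop where
  mono : Monotone f
  right_cont : ∀ t, ContinuousWithinAt f (Ici t) t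
  zero : f 0 = 0
  pos : ∀ t, 0 < t → 0 < f t

/-- the diameter of a set of reals, as a nonnegative real (only used for sets of finite diameter) -/
noncomputable def diamN (U : Set ℝ) : ℝ≥0 := (Metric.ediam U).toNNReal

/-- `H^f_δ(A) = inf { ∑_i f(diam U_i) : A ⊆ ⋃_i U_i, diam U_i ≤ δ }` -/
noncomputable def Hdelta (f : ℝ≥0 → ℝ≥0) (δ : ℝ≥0) (A : Set ℝ) : ℝ≥0∞ :=
  ⨅ (U : ℕ → Set ℝ) (_ : A ⊆ ⋃ i, U i) (_ : ∀ i, Metric.ediam (U i) ≤ δ),
    ∑' i, (f (diamN (U i)) : ℝ≥0∞)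

/-- `H^f(A) = lim_{δ → 0+} H^f_δ(A) = sup_{δ > 0} H^f_δ(A)` -/
noncomputable def H (f : ℝ≥0 → ℝ≥0) (A : Set ℝ) : ℝ≥0∞ :=
  ⨆ (δ : ℝ≥0) (_ : 0 < δ), Hdelta f δ A

/-- `H^f_δ(A)` increases when `δ` decreases, so the limit for `δ → 0+` is the supremum. -/
theorem Hdelta_anti (f : ℝ≥0 → ℝ≥0) (A : Set ℝ) : Antitone fun δ => Hdelta f δ A := by
  intro δ δ' h
  refine le_iInf fun U => le_iInf fun h1 => le_iInf fun h2 => ?_
  exact iInf_le_of_le U (iInf_le_of_le h1 (iInf_le_of_le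
    (fun i => (h2 i).trans (by exact_mod_cast h)) le_rfl))

theorem tendsto_Hdelta (f : ℝ≥0 → ℝ≥0) (A : Set ℝ) :
    Tendsto (fun δ => Hdelta f δ A) (𝓝[>] 0) (𝓝 (H f A)) := by
  have h1 : H f A = sSup ((fun δ => Hdelta f δ A) '' Ioi 0) := by
    simp only [H, sSup_image, mem_Ioi]
  rw [h1]
  exact (Hdelta_anti f A).tendsto_nhdsGT 0

/-- the gauge as a function of the extended diameter -/
noncomputable def mf (f : ℝ≥0 → ℝ≥0) (r : ℝ≥0∞) : ℝ≥0∞ := if r = ⊤ then ⊤ else f r.toNNReal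

theorem term_eq {f : ℝ≥0 → ℝ≥0} (hf : f 0 = 0) {U : Set ℝ} (hU : Metric.ediam U ≠ ⊤) :
    (⨆ _ : U.Nonempty, mf f (Metric.ediam U)) = (f (diamN U) : ℝ≥0∞) := by
  rcases U.eq_empty_or_nonempty with h | h
  · subst h
    simp [diamN, hf]
  · simp [h, mf, hU, diamN]

theorem H_eq {f : ℝ≥0 → ℝ≥0} (hf : f 0 = 0) (A : Set ℝ) :
    H f A = (Measure.mkMetric (mf f) : Measure ℝ) A := by
  rw [Measure.mkMetric_apply]
  apply le_antisymm
  · refine iSup₂_le fun δ hδ => ?_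
    refine le_iSup₂_of_le (δ : ℝ≥0∞) (by exact_mod_cast hδ) ?_
    refine le_iInf fun t => le_iInf fun h1 => le_iInf fun h2 => ?_
    refine (iInf_le _ t).trans ((iInf_le _ h1).trans ((iInf_le _ h2).trans (le_of_eq ?_)))
    refine tsum_congr fun n => ?_
    exact (term_eq hf (ne_top_of_le_ne_top ENNReal.coe_ne_top (h2 n))).symm
  · refine iSup₂_le fun r hr => ?_
    have h0 : min r 1 ≠ ⊤ := ne_top_of_le_ne_top ENNReal.one_ne_top (min_le_right _ _)
    refine le_iSup₂_of_le (min r 1).toNNReal ?_ ?_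
    · rw [← ENNReal.coe_pos, ENNReal.coe_toNNReal h0]
      exact lt_min hr one_pos
    refine le_iInf fun t => le_iInf fun h1 => le_iInf fun h2 => ?_
    have h3 : ∀ n, Metric.ediam (t n) ≤ r := fun n => by
      refine (h2 n).trans ?_
      rw [ENNReal.coe_toNNReal h0]
      exact min_le_left _ _
    refine (iInf_le _ t).trans ((iInf_le _ h1).trans ((iInf_le _ h3).trans (le_of_eq ?_)))
    refine tsum_congr fun n => ?_
    exact term_eq hf (ne_top_of_le_ne_top ENNReal.coe_ne_top (h2 n))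

theorem H_singleton {f : ℝ≥0 → ℝ≥0} (hf : f 0 = 0) (x : ℝ) : H f {x} = 0 := by
  refine le_antisymm (iSup₂_le fun δ _ => ?_) zero_le
  refine iInf_le_of_le (fun i => if i = 0 then {x} else ∅) (iInf_le_of_le ?_ (iInf_le_of_le ?_ ?_))
  · intro y hy
    exact mem_iUnion.2 ⟨0, by simpa using hy⟩
  · intro i
    by_cases hi : i = 0
    · simp [hi]
    · simp [hi]
  · apply le_of_eq
    rw [ENNReal.tsum_eq_zero]
    intro i
    by_cases hi : i = 0
    · simp [hi, diamN, hf]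
    · simp [hi, diamN, hf]

/-- A set that is null for every finite nonatomic measure has no subset of finite positive
`H^f`-measure. -/
theorem dichotomy {f : ℝ≥0 → ℝ≥0} (hf : f 0 = 0) {A : Set ℝ}
    (hA : ∀ μ : Measure ℝ, IsFiniteMeasure μ → NullSingletonClass μ → μ A = 0) :
    ∀ A₀ ⊆ A, H f A₀ = 0 ∨ H f A₀ = ⊤ := by
  intro A₀ hA₀
  by_contra hcon
  push Not at hcon
  obtain ⟨h1, h2⟩ := hcon
  set μ : Measure ℝ := Measure.mkMetric (mf f) with hμ
  have hsing : ∀ x : ℝ, μ {x} = 0 := fun x => by rw [← H_eq hf, H_singleton hf]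
  have : NullSingletonClass μ := ⟨hsing⟩
  rw [H_eq hf] at h1 h2
  set B := toMeasurable μ A₀ with hB
  have hBm : MeasurableSet B := measurableSet_toMeasurable _ _
  have hBA : A₀ ⊆ B := subset_toMeasurable _ _
  have hBμ : μ B = μ A₀ := measure_toMeasurable _
  have h3 : IsFiniteMeasure (μ.restrict B) := by
    constructor
    rw [Measure.restrict_apply MeasurableSet.univ, univ_inter, hBμ]
    exact lt_top_iff_ne_top.2 h2
  have h4 := hA (μ.restrict B) h3 inferInstance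
  rw [Measure.restrict_apply' hBm] at h4
  exact h1 (measure_mono_null (subset_inter hA₀ hBA) h4)

/-! ### Gauges that are small compared with the length -/

theorem H_Ico_lt_top {f : ℝ≥0 → ℝ≥0} (hf : IsGauge f) {C : ℝ≥0}
    (hC : ∀ δ : ℝ≥0, 0 < δ → ∃ t, 0 < t ∧ t < δ ∧ f t ≤ C * t) (a : ℝ) :
    H f (Ico a (a + 1)) < ⊤ := by
  refine lt_of_le_of_lt (b := ((2 * C : ℝ≥0) : ℝ≥0∞)) ?_ ENNReal.coe_lt_top
  refine iSup₂_le fun δ hδ => ?_
  obtain ⟨t, ht0, htδ, htC⟩ := hC (min δ 1) (lt_min hδ one_pos)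
  have ht1 : t < 1 := htδ.trans_le (min_le_right _ _)
  have ht0' : (0 : ℝ) < t := by exact_mod_cast ht0
  set N : ℕ := ⌈(1 : ℝ) / t⌉₊ with hN
  have hN1 : (1 : ℝ) / t ≤ N := Nat.le_ceil _
  have hN2 : (N : ℝ) < 1 / t + 1 := Nat.ceil_lt_add_one (by positivity)
  let U : ℕ → Set ℝ := fun i => if i < N then Icc (a + i * t) (a + (i + 1) * t) else ∅
  have hdiam : ∀ i, i < N → Metric.ediam (U i) = t := by
    intro i hi
    simp only [U, if_pos hi]
    rw [Real.ediam_Icc]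
    have : a + (i + 1) * (t : ℝ) - (a + i * t) = t := by ring
    rw [this]
    simp
  refine iInf_le_of_le U (iInf_le_of_le ?_ (iInf_le_of_le ?_ ?_))
  · intro x hx
    have hx0 : 0 ≤ (x - a) / t := div_nonneg (by linarith [hx.1]) ht0'.le
    set i := ⌊(x - a) / t⌋₊ with hi
    have h1 : (i : ℝ) ≤ (x - a) / t := Nat.floor_le hx0
    have h2 : (x - a) / t < i + 1 := Nat.lt_floor_add_one _
    have h3 : i < N := by
      have h4 : (x - a) / t < 1 / t := by
        apply div_lt_div_of_pos_right _ ht0'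
        linarith [hx.2]
      exact_mod_cast h1.trans_lt (h4.trans_le hN1)
    refine mem_iUnion.2 ⟨i, ?_⟩
    simp only [U, if_pos h3]
    rw [le_div_iff₀ ht0'] at h1
    rw [div_lt_iff₀ ht0'] at h2
    exact ⟨by linarith, by linarith⟩
  · intro i
    by_cases hi : i < N
    · rw [hdiam i hi]
      exact_mod_cast (htδ.trans_le (min_le_left _ _)).le
    · simp [U, hi]
  · have h1 : ∀ i, i ∉ Finset.range N → ((f (diamN (U i)) : ℝ≥0) : ℝ≥0∞) = 0 := by
      intro i hi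
      rw [Finset.mem_range] at hi
      simp [U, hi, diamN, hf.zero]
    rw [tsum_eq_sum h1]
    have h2 : ∀ i ∈ Finset.range N, ((f (diamN (U i)) : ℝ≥0) : ℝ≥0∞) = (f t : ℝ≥0∞) := by
      intro i hi
      rw [diamN, hdiam i (Finset.mem_range.1 hi)]
      simp
    rw [Finset.sum_congr rfl h2, Finset.sum_const, Finset.card_range, nsmul_eq_mul]
    have h3 : (N : ℝ≥0) * f t ≤ 2 * C := by
      calc (N : ℝ≥0) * f t ≤ N * (C * t) := by gcongr
        _ = (N * t) * C := by ring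
        _ ≤ 2 * C := by
          gcongr
          have h4 : (N : ℝ) * t ≤ 2 := by
            have h5 : (N : ℝ) * t ≤ (1 / t + 1) * t := by
              exact mul_le_mul_of_nonneg_right hN2.le ht0'.le
            have h6 : (1 / (t : ℝ) + 1) * t = 1 + t := by field_simp
            have h7 : (t : ℝ) < 1 := by exact_mod_cast ht1
            linarith
          exact_mod_cast h4
    exact_mod_cast h3

theorem exists_finite_part {f : ℝ≥0 → ℝ≥0} (hf : IsGauge f) {C : ℝ≥0}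
    (hC : ∀ δ : ℝ≥0, 0 < δ → ∃ t, 0 < t ∧ t < δ ∧ f t ≤ C * t) (A : Set ℝ) (hA : 0 < H f A) :
    ∃ A₀ ⊆ A, 0 < H f A₀ ∧ H f A₀ < ⊤ := by
  by_contra hcon
  push Not at hcon
  have h1 : ∀ n : ℤ, H f (A ∩ Ico (n : ℝ) (n + 1)) = 0 := by
    intro n
    by_contra h
    have h2 := hcon _ inter_subset_left (pos_iff_ne_zero.2 h)
    have h3 : H f (A ∩ Ico (n : ℝ) (n + 1)) ≤ H f (Ico (n : ℝ) (n + 1)) := by
      rw [H_eq hf.zero, H_eq hf.zero]
      exact measure_mono inter_subset_right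
    exact absurd (h2.trans h3) (not_le.2 (H_Ico_lt_top hf hC n))
  have h2 : H f A = 0 := by
    rw [H_eq hf.zero]
    have h3 : A ⊆ ⋃ n : ℤ, A ∩ Ico (n : ℝ) (n + 1) := by
      intro x hx
      exact mem_iUnion.2 ⟨⌊x⌋, hx, Int.floor_le x, Int.lt_floor_add_one x⟩
    refine measure_mono_null h3 (measure_iUnion_null fun n => ?_)
    rw [← H_eq hf.zero]
    exact h1 n
  exact hA.ne' h2

/-! ### Gauges that are large compared with the length -/

theorem cnt_ge {φ : ℕ → ℕ} (hφ : StrictMono φ) {n j : ℕ} (h : n ≤ φ j) : n ≤ cnt φ n + j := by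
  classical
  have h1 : cnt φ n = ((Finset.range n).filter (fun m => m ∉ range φ)).card := by
    unfold cnt
    rw [Nat.count_eq_card_filter_range]
  have h2 : ((Finset.range n).filter (fun m => m ∈ range φ)).card ≤ j := by
    have h3 : (Finset.range n).filter (fun m => m ∈ range φ) ⊆ (Finset.range j).image φ := by
      intro m hm
      rw [Finset.mem_filter, Finset.mem_range] at hm
      obtain ⟨hm1, i, rfl⟩ := hm
      have h4 : i < j := hφ.lt_iff_lt.1 (hm1.trans_le h)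
      exact Finset.mem_image_of_mem _ (Finset.mem_range.2 h4)
    refine (Finset.card_le_card h3).trans (Finset.card_image_le.trans ?_)
    simp
  have h5 := Finset.card_filter_add_card_filter_not (s := Finset.range n) (fun m => m ∈ range φ)
  rw [Finset.card_range] at h5
  rw [h1]
  omega

theorem compl_infinite {φ : ℕ → ℕ} (hφ : StrictMono φ) (h2 : ∀ j, 2 * j ≤ φ j) :
    {m | m ∉ range φ}.Infinite := by
  classical
  intro hfin
  have h1 : ∀ n, cnt φ n ≤ hfin.toFinset.card := by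
    intro n
    have h3 : cnt φ n = ((Finset.range n).filter (fun m => m ∉ range φ)).card := by
      unfold cnt
      rw [Nat.count_eq_card_filter_range]
    rw [h3]
    refine Finset.card_le_card ?_
    intro m hm
    rw [Finset.mem_filter] at hm
    exact hfin.mem_toFinset.2 hm.2
  have h3 := cnt_ge hφ (h2 (hfin.toFinset.card + 1))
  have h4 := h1 (2 * (hfin.toFinset.card + 1))
  omega

theorem cnt_tendsto {φ : ℕ → ℕ} (hφ : StrictMono φ) (h2 : ∀ j, 2 * j ≤ φ j) (N : ℕ) :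
    ∃ n, N ≤ cnt φ n := by
  refine ⟨2 * N, ?_⟩
  have := cnt_ge hφ (h2 N)
  omega

/-- If `f(t)/t → ∞` there are code positions so sparse that the coding costs nothing. -/
theorem exists_positions {f : ℝ≥0 → ℝ≥0}
    (hf : ∀ C : ℝ≥0, ∃ δ : ℝ≥0, 0 < δ ∧ ∀ t, 0 < t → t < δ → C * t < f t) :
    ∃ φ : ℕ → ℕ, StrictMono φ ∧ (∀ j, 2 * j ≤ φ j) ∧
      ∃ n0 : ℕ, ∀ n ≥ n0, ((2 : ℝ≥0) ^ cnt φ n)⁻¹ ≤ f (((2 : ℝ≥0) ^ (n + 1))⁻¹) := by
  have hev : ∀ C : ℝ≥0, ∀ᶠ n : ℕ in atTop,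
      C * ((2 : ℝ≥0) ^ (n + 1))⁻¹ ≤ f (((2 : ℝ≥0) ^ (n + 1))⁻¹) := by
    intro C
    obtain ⟨δ, hδ, h⟩ := hf C
    have h1 : Tendsto (fun n : ℕ => ((2 : ℝ≥0) ^ (n + 1))⁻¹) atTop (𝓝 0) := by
      have h2 : Tendsto (fun n : ℕ => ((1 / 2 : ℝ≥0)) ^ n) atTop (𝓝 0) :=
        tendsto_pow_atTop_nhds_zero_of_lt_one zero_le (by
          rw [div_lt_one (by norm_num)]; norm_num)
      have h3 := h2.comp (tendsto_add_atTop_nat 1)
      refine h3.congr fun n => ?_
      simp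
    filter_upwards [h1.eventually (gt_mem_nhds hδ)] with n hn
    exact (h _ (by positivity) hn).le
  obtain ⟨φ, hφ, hP⟩ := extraction_forall_of_eventually
    (P := fun j d => (∀ n ≥ d, (2 : ℝ≥0) ^ (j + 2) * ((2 : ℝ≥0) ^ (n + 1))⁻¹ ≤
      f (((2 : ℝ≥0) ^ (n + 1))⁻¹)) ∧ 2 * j ≤ d) (by
        intro j
        have h1 := hev ((2 : ℝ≥0) ^ (j + 2))
        rw [eventually_atTop] at h1
        obtain ⟨N, hN⟩ := h1
        filter_upwards [eventually_ge_atTop N, eventually_ge_atTop (2 * j)] with d hd1 hd2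
        exact ⟨fun n hn => hN n (hd1.trans hn), hd2⟩)
  have h0 := hev 2
  rw [eventually_atTop] at h0
  obtain ⟨n0, hn0⟩ := h0
  refine ⟨φ, hφ, fun j => (hP j).2, n0, fun n hn => ?_⟩
  have hex : ∃ j, n ≤ φ j := ⟨n, hφ.id_le n⟩
  classical
  set j := Nat.find hex with hj
  have hj1 : n ≤ φ j := Nat.find_spec hex
  have hcnt := cnt_ge hφ hj1
  -- `2^{-cnt} ≤ 2^j 2^{-n}`
  have key : ((2 : ℝ≥0) ^ cnt φ n)⁻¹ ≤ 2 ^ (j + 1) * ((2 : ℝ≥0) ^ (n + 1))⁻¹ := by
    have h1 : (2 : ℝ≥0) ^ (n + 1) ≤ 2 ^ (cnt φ n + (j + 1)) :=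
      pow_le_pow_right₀ (by norm_num) (by omega)
    rw [pow_add 2 (cnt φ n)] at h1
    rw [inv_le_iff_one_le_mul₀ (by positivity), mul_assoc, mul_comm, mul_assoc, ← div_eq_inv_mul,
      one_le_div (by positivity)]
    exact h1
  refine key.trans ?_
  rcases Nat.eq_zero_or_pos j with h | h
  · rw [h, zero_add, pow_one]
    exact hn0 n hn
  · obtain ⟨i, hi⟩ : ∃ i, j = i + 1 := ⟨j - 1, by omega⟩
    have h1 : φ i < n := by
      by_contra hcon
      exact Nat.find_min hex (show i < Nat.find hex by rw [← hj]; omega) (not_lt.1 hcon)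
    have h2 := (hP i).1 n h1.le
    rw [hi]
    exact h2

theorem vol_le_gauge {f : ℝ≥0 → ℝ≥0} (hf : IsGauge f) {φ : ℕ → ℕ} (hφ : StrictMono φ)
    (hφ2 : ∀ j, 2 * j ≤ φ j) {n0 : ℕ}
    (hn0 : ∀ n ≥ n0, ((2 : ℝ≥0) ^ cnt φ n)⁻¹ ≤ f (((2 : ℝ≥0) ^ (n + 1))⁻¹)) (U : Set ℝ)
    (hU : Metric.ediam U ≤ (((2 : ℝ≥0) ^ (n0 + 1))⁻¹ : ℝ≥0)) :
    volume {y : ℝ | ∃ c z : Bin, Real.ofDigits z = y ∧ Real.ofDigits (mrg φ c z) ∈ U} ≤
      5 * (f (diamN U) : ℝ≥0∞) := by
  have hinf := compl_infinite hφ hφ2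
  have htop : Metric.ediam U ≠ ⊤ := ne_top_of_le_ne_top ENNReal.coe_ne_top hU
  have hdist : ∀ x ∈ U, ∀ y ∈ U, |x - y| ≤ (diamN U : ℝ) := by
    intro x hx y hy
    have h1 : edist x y ≤ Metric.ediam U := Metric.edist_le_ediam_of_mem hx hy
    have h2 : (diamN U : ℝ≥0∞) = Metric.ediam U := ENNReal.coe_toNNReal htop
    rw [← h2, edist_nndist] at h1
    have h3 : nndist x y ≤ diamN U := by exact_mod_cast h1
    have h4 : dist x y ≤ (diamN U : ℝ) := by exact_mod_cast h3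
    rwa [Real.dist_eq] at h4
  have hcast : ∀ m : ℕ, ENNReal.ofReal (((2 : ℝ) ^ m)⁻¹) = (((2 : ℝ≥0) ^ m)⁻¹ : ℝ≥0) := by
    intro m
    rw [ENNReal.ofReal, ENNReal.coe_inj]
    apply NNReal.eq
    rw [Real.coe_toNNReal _ (by positivity)]
    push_cast
    rfl
  rcases eq_or_ne (diamN U) 0 with h0 | h0
  · have h1 : ∀ n, volume {y : ℝ | ∃ c z : Bin, Real.ofDigits z = y ∧
        Real.ofDigits (mrg φ c z) ∈ U} ≤ 5 * ENNReal.ofReal (((2 : ℝ) ^ cnt φ n)⁻¹) := by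
      intro n
      refine vol_le hinf n U fun x hx y hy => ?_
      refine (hdist x hx y hy).trans ?_
      rw [h0]
      simp
    have h2 : volume {y : ℝ | ∃ c z : Bin, Real.ofDigits z = y ∧
        Real.ofDigits (mrg φ c z) ∈ U} = 0 := by
      have h3 : Tendsto (fun N : ℕ => 5 * ENNReal.ofReal (((2 : ℝ) ^ N)⁻¹)) atTop (𝓝 0) := by
        have h4 : Tendsto (fun N : ℕ => (((2 : ℝ) ^ N)⁻¹)) atTop (𝓝 0) := by
          have h5 := tendsto_pow_atTop_nhds_zero_of_lt_one (r := (1 / 2 : ℝ)) (by norm_num)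
            (by norm_num)
          refine h5.congr fun n => ?_
          simp
        have h5 := ENNReal.tendsto_ofReal h4
        rw [ENNReal.ofReal_zero] at h5
        have h6 := ENNReal.Tendsto.const_mul (a := 5) h5 (Or.inr (by norm_num))
        simpa using h6
      refine le_antisymm (ge_of_tendsto h3 (Eventually.of_forall fun N => ?_)) zero_le
      obtain ⟨n, hn⟩ := cnt_tendsto hφ hφ2 N
      refine (h1 n).trans ?_
      gcongr
      norm_num
    rw [h2]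
    exact zero_le
  · have hpos : (0 : ℝ) < diamN U := by
      have := pos_iff_ne_zero.2 h0
      exact_mod_cast this
    have hle : diamN U ≤ ((2 : ℝ≥0) ^ (n0 + 1))⁻¹ := by
      have h2 : (diamN U : ℝ≥0∞) = Metric.ediam U := ENNReal.coe_toNNReal htop
      rw [← h2] at hU
      exact_mod_cast hU
    have hle' : (diamN U : ℝ) ≤ ((2 : ℝ) ^ (n0 + 1))⁻¹ := by exact_mod_cast hle
    have hle1 : (diamN U : ℝ) ≤ 1 := by
      refine hle'.trans ?_
      rw [inv_le_one_iff₀]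
      right
      exact one_le_pow₀ (by norm_num)
    obtain ⟨n, hn1, hn2⟩ := exists_nat_pow_near_of_lt_one hpos hle1 (y := (1 / 2 : ℝ))
      (by norm_num) (by norm_num)
    have e1 : ∀ m : ℕ, (1 / 2 : ℝ) ^ m = ((2 : ℝ) ^ m)⁻¹ := by intro m; simp
    rw [e1] at hn1 hn2
    have hnn : n0 ≤ n := by
      by_contra hcon
      have h3 : ((2 : ℝ) ^ (n0 + 1))⁻¹ < ((2 : ℝ) ^ (n + 1))⁻¹ := by
        rw [inv_lt_inv₀ (by positivity) (by positivity)]
        exact pow_lt_pow_right₀ (by norm_num) (by omega)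
      linarith
    refine (vol_le hinf n U fun x hx y hy => (hdist x hx y hy).trans hn2).trans ?_
    rw [hcast]
    have h4 : ((2 : ℝ≥0) ^ cnt φ n)⁻¹ ≤ f (diamN U) := by
      refine (hn0 n hnn).trans (hf.mono ?_)
      have : (((2 : ℝ≥0) ^ (n + 1))⁻¹ : ℝ) ≤ (diamN U : ℝ) := by exact_mod_cast hn1.le
      exact_mod_cast this
    gcongr

/-- If `f(t)/t → ∞` as `t → 0`, there is a universally null set of positive `H^f`-measure. -/
theorem exists_bad {f : ℝ≥0 → ℝ≥0} (hf : IsGauge f)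
    (hlarge : ∀ C : ℝ≥0, ∃ δ : ℝ≥0, 0 < δ ∧ ∀ t, 0 < t → t < δ → C * t < f t) :
    ∃ A : Set ℝ, (∀ μ : Measure ℝ, IsFiniteMeasure μ → NullSingletonClass μ → μ A = 0) ∧
      H f A = ⊤ := by
  obtain ⟨φ, hφ, hφ2, n0, hn0⟩ := exists_positions hlarge
  obtain ⟨A, Y, hY, hYA, hA⟩ := exists_set hφ.injective
  refine ⟨A, hA, ?_⟩
  have hpos : H f A ≠ 0 := by
    intro h0
    have h1 : Hdelta f (((2 : ℝ≥0) ^ (n0 + 1))⁻¹) A = 0 := by
      have h2 : Hdelta f (((2 : ℝ≥0) ^ (n0 + 1))⁻¹) A ≤ H f A :=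
        le_iSup₂_of_le (((2 : ℝ≥0) ^ (n0 + 1))⁻¹) (by positivity) le_rfl
      rw [h0] at h2
      exact le_antisymm h2 zero_le
    have h3 : volume Y ≤ 5 * Hdelta f (((2 : ℝ≥0) ^ (n0 + 1))⁻¹) A := by
      unfold Hdelta
      simp only [ENNReal.mul_iInf_of_ne (show (5 : ℝ≥0∞) ≠ 0 by norm_num)
        (show (5 : ℝ≥0∞) ≠ ⊤ by norm_num)]
      refine le_iInf fun U => le_iInf fun hU1 => le_iInf fun hU2 => ?_
      have h4 : Y ⊆ ⋃ i, {y : ℝ | ∃ c z : Bin, Real.ofDigits z = y ∧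
          Real.ofDigits (mrg φ c z) ∈ U i} := by
        intro y hy
        obtain ⟨c, z, hz, hmem⟩ := hYA y hy
        obtain ⟨i, hi⟩ := mem_iUnion.1 (hU1 hmem)
        exact mem_iUnion.2 ⟨i, c, z, hz, hi⟩
      refine (measure_mono h4).trans ((measure_iUnion_le _).trans ?_)
      rw [← ENNReal.tsum_mul_left]
      exact ENNReal.tsum_le_tsum fun i => vol_le_gauge hf hφ hφ2 hn0 (U i) (hU2 i)
    rw [h1, mul_zero] at h3
    exact hY (le_antisymm h3 zero_le)
  exact (dichotomy hf.zero hA A subset_rfl).resolve_left hpos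

end Pool.Agent.K1H75.Gauge
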