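import Pool.Agent.K1H75.Gauge.Dig

/-!
The least size of a Lebesgue nonnull set, and a universally null set of reals that codes it.
-/

set_option autoImplicit false

open Set Real MeasureTheory Filter Topology
open Cardinal (mk)
open scoped Cardinal
open scoped ENNReal NNReal

namespace Pool.Agent.K1H75.Gauge

/-- The distribution function of a nonatomic probability measure sends it to Lebesgue measure. -/
theorem map_cdf (ν : Measure ℝ) [IsProbabilityMeasure ν] [NullSingletonClass ν] :
    ν.map (fun x => ProbabilityTheory.cdf ν x) = volume.restrict (Icc 0 1) := by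
  set F : ℝ → ℝ := fun x => ProbabilityTheory.cdf ν x with hF
  have hmono : Monotone F := (ProbabilityTheory.cdf ν).mono
  have hcont : Continuous F := by
    rw [continuous_iff_continuousAt]
    intro x
    rw [hmono.continuousAt_iff_leftLim_eq_rightLim]
    have h1 : (ProbabilityTheory.cdf ν).measure {x} = 0 := by
      rw [ProbabilityTheory.measure_cdf]; exact measure_singleton x
    rw [StieltjesFunction.measure_singleton, ENNReal.ofReal_eq_zero] at h1
    have h2 : Function.rightLim F x = F x := (ProbabilityTheory.cdf ν).rightLim_eq x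
    have h3 : Function.leftLim F x ≤ F x := hmono.leftLim_le le_rfl
    rw [h2]
    have h4 : F x - Function.leftLim F x ≤ 0 := h1
    linarith
  have hIic : ∀ x, ν (Iic x) = ENNReal.ofReal (F x) := by
    intro x
    exact (ProbabilityTheory.ofReal_cdf ν x).symm
  have h0 : ∀ x, 0 ≤ F x := fun x => ProbabilityTheory.cdf_nonneg ν x
  have h1 : ∀ x, F x ≤ 1 := fun x => ProbabilityTheory.cdf_le_one ν x
  haveI : IsFiniteMeasure (ν.map F) := by
    constructor
    rw [Measure.map_apply hcont.measurable MeasurableSet.univ]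
    exact measure_lt_top _ _
  refine Measure.ext_of_Iic _ _ fun a => ?_
  rw [Measure.map_apply hcont.measurable measurableSet_Iic,
    Measure.restrict_apply measurableSet_Iic]
  rcases lt_or_ge a 0 with ha | ha
  · have e1 : F ⁻¹' Iic a = ∅ := by
      ext x
      simp only [mem_preimage, mem_Iic, mem_empty_iff_false, iff_false, not_le]
      exact ha.trans_le (h0 x)
    have e2 : Iic a ∩ Icc (0 : ℝ) 1 = ∅ := by
      ext x
      simp only [mem_inter_iff, mem_Iic, mem_Icc, mem_empty_iff_false, iff_false]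
      intro h; linarith [h.1, h.2.1]
    rw [e1, e2]
    simp
  rcases le_or_gt 1 a with ha1 | ha1
  · have e1 : F ⁻¹' Iic a = univ := by
      ext x
      simp only [mem_preimage, mem_Iic, mem_univ, iff_true]
      exact (h1 x).trans ha1
    have e2 : Iic a ∩ Icc (0 : ℝ) 1 = Icc 0 1 := by
      ext x
      simp only [mem_inter_iff, mem_Iic, mem_Icc]
      constructor
      · exact fun h => h.2
      · exact fun h => ⟨h.2.trans ha1, h⟩
    rw [e1, e2]
    simp
  have e2 : Iic a ∩ Icc (0 : ℝ) 1 = Icc 0 a := by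
    ext x
    simp only [mem_inter_iff, mem_Iic, mem_Icc]
    constructor
    · exact fun h => ⟨h.2.1, h.1⟩
    · exact fun h => ⟨h.2, h.1, h.2.trans ha1.le⟩
  rw [e2, Real.volume_Icc, sub_zero]
  set E : Set ℝ := F ⁻¹' Iic a with hE
  rcases E.eq_empty_or_nonempty with hemp | hne
  · have h2 : ∀ x, a < F x := fun x => by
      by_contra hcon
      have : x ∈ E := not_lt.1 hcon
      rw [hemp] at this; exact this
    have h3 : a ≤ 0 := ge_of_tendsto (ProbabilityTheory.tendsto_cdf_atBot ν)
      (Eventually.of_forall fun x => (h2 x).le)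
    have h4 : a = 0 := le_antisymm h3 ha
    rw [hemp, h4]
    simp
  have hbdd : BddAbove E := by
    have h2 : ∀ᶠ x in atTop, a < F x := (ProbabilityTheory.tendsto_cdf_atTop ν).eventually
      (lt_mem_nhds ha1)
    obtain ⟨x0, hx0⟩ := h2.exists
    refine ⟨x0, fun x hx => ?_⟩
    by_contra hcon
    have h3 : F x0 ≤ F x := hmono (not_le.1 hcon).le
    have h4 : F x ≤ a := hx
    linarith
  have hclosed : IsClosed E := isClosed_Iic.preimage hcont
  set s := sSup E with hs
  have hsE : s ∈ E := hclosed.csSup_mem hne hbdd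
  have hEs : E = Iic s := by
    ext x
    constructor
    · exact fun hx => le_csSup hbdd hx
    · intro hx
      have h2 : F x ≤ F s := hmono hx
      exact h2.trans hsE
  have hFs : F s = a := by
    refine le_antisymm hsE ?_
    have h2 : Tendsto F (𝓝[>] s) (𝓝 (F s)) := hcont.continuousAt.tendsto.mono_left nhdsWithin_le_nhds
    refine ge_of_tendsto h2 ?_
    filter_upwards [self_mem_nhdsWithin] with x hx
    by_contra hcon
    have h3 : x ∈ E := (not_le.1 hcon).le
    exact absurd (le_csSup hbdd h3) (not_le.2 hx)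
  rw [hEs, hIic, hFs]

/-- Sets smaller than every Lebesgue nonnull subset of `[0,1)` are null for every finite nonatomic
measure. -/
theorem small_null {κ : Cardinal.{0}}
    (hκ : ∀ S : Set ℝ, S ⊆ Ico 0 1 → #S < κ → volume S = 0)
    (ν : Measure ℝ) [IsFiniteMeasure ν] [NullSingletonClass ν] (S : Set ℝ) (hS : #S < κ) : ν S = 0 := by
  by_cases hz : ν = 0
  · rw [hz]; simp
  haveI : NeZero ν := ⟨hz⟩
  set c : ℝ≥0∞ := (ν univ)⁻¹ with hc
  have hνu : ν univ ≠ 0 := by simpa using hz
  have hc0 : c ≠ 0 := by rw [hc]; simp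
  set ν' : Measure ℝ := c • ν with hν'
  haveI : IsProbabilityMeasure ν' := by
    constructor
    rw [hν', Measure.smul_apply, smul_eq_mul, hc]
    exact ENNReal.inv_mul_cancel hνu (measure_ne_top _ _)
  haveI : NullSingletonClass ν' := ⟨fun x => by rw [hν', Measure.smul_apply, measure_singleton, smul_zero]⟩
  have key : ν' S = 0 := by
    set F : ℝ → ℝ := fun x => ProbabilityTheory.cdf ν' x with hF
    have hmeas : Measurable F := (ProbabilityTheory.cdf ν').mono.measurable
    have h1 : volume ((F '' S) ∩ Ico 0 1) = 0 := by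
      refine hκ _ inter_subset_right ?_
      exact (Cardinal.mk_le_mk_of_subset inter_subset_left).trans_lt
        (Cardinal.mk_image_le.trans_lt hS)
    have h2 : volume.restrict (Icc 0 1) (F '' S) = 0 := by
      rw [Measure.restrict_apply' measurableSet_Icc]
      have h3 : F '' S ∩ Icc 0 1 ⊆ ((F '' S) ∩ Ico 0 1) ∪ {1} := by
        rintro x ⟨hx, hx0, hx1⟩
        rcases hx1.lt_or_eq with h | h
        · exact Or.inl ⟨hx, hx0, h⟩
        · exact Or.inr h
      refine measure_mono_null h3 (measure_union_null h1 ?_)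
      exact measure_singleton _
    rw [← map_cdf ν'] at h2
    obtain ⟨N, hN1, hN2, hN3⟩ := exists_measurable_superset_of_null h2
    rw [Measure.map_apply hmeas hN2] at hN3
    have hsub : S ⊆ F ⁻¹' N := fun x hx => hN1 ⟨x, hx, rfl⟩
    exact measure_mono_null hsub hN3
  rw [hν', Measure.smul_apply, smul_eq_mul, mul_eq_zero] at key
  exact key.resolve_left hc0

/-- an enumerated basis of the line -/
theorem exists_basis : ∃ I : ℕ → Set ℝ, (∀ k, IsOpen (I k)) ∧
    ∀ O : Set ℝ, IsOpen O → O = ⋃ k ∈ {k | I k ⊆ O}, I k := by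
  obtain ⟨b, hbc, hbe, hb⟩ := TopologicalSpace.exists_countable_basis ℝ
  have hne : b.Nonempty := by
    obtain ⟨v, hv, -, -⟩ := hb.exists_subset_of_mem_open (mem_univ (0 : ℝ)) isOpen_univ
    exact ⟨v, hv⟩
  obtain ⟨I, hI⟩ := hbc.exists_eq_range hne
  refine ⟨I, fun k => hb.isOpen (by rw [hI]; exact ⟨k, rfl⟩), fun O hO => ?_⟩
  ext x
  simp only [mem_iUnion, mem_setOf_eq, exists_prop]
  constructor
  · intro hx
    obtain ⟨v, hv, hxv, hvO⟩ := hb.exists_subset_of_mem_open hx hO
    rw [hI] at hv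
    obtain ⟨k, rfl⟩ := hv
    exact ⟨k, hvO, hxv⟩
  · rintro ⟨k, hk, hx⟩
    exact hk hx

/-- the `G_δ` set coded by `c` -/
def gset (I : ℕ → Set ℝ) (c : Bin) : Set ℝ := {y | ∀ n, ∃ k, c (Nat.pair n k) = 1 ∧ y ∈ I k}

theorem exists_code {I : ℕ → Set ℝ} (hI : ∀ O : Set ℝ, IsOpen O → O = ⋃ k ∈ {k | I k ⊆ O}, I k)
    {S : Set ℝ} (hS : volume S = 0) : ∃ c : Bin, S ⊆ gset I c ∧ volume (gset I c) = 0 := by
  classical
  have h1 : ∀ n : ℕ, ∃ O : Set ℝ, S ⊆ O ∧ IsOpen O ∧ volume O ≤ ENNReal.ofReal (1 / ((n : ℝ) + 1)) := by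
    intro n
    obtain ⟨O, hO1, hO2, hO3⟩ := S.exists_isOpen_le_add volume
      (ε := ENNReal.ofReal (1 / ((n : ℝ) + 1))) (by
        rw [ne_eq, ENNReal.ofReal_eq_zero, not_le]; positivity)
    rw [hS, zero_add] at hO3
    exact ⟨O, hO1, hO2, hO3⟩
  choose O hO1 hO2 hO3 using h1
  refine ⟨fun j => if I (Nat.unpair j).2 ⊆ O (Nat.unpair j).1 then 1 else 0, ?_, ?_⟩
  · intro y hy n
    have h2 : y ∈ O n := hO1 n hy
    rw [hI _ (hO2 n)] at h2
    simp only [mem_iUnion, mem_setOf_eq, exists_prop] at h2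
    obtain ⟨k, hk, hyk⟩ := h2
    exact ⟨k, by simp [Nat.unpair_pair, hk], hyk⟩
  · have h3 : ∀ n : ℕ, volume (gset I (fun j => if I (Nat.unpair j).2 ⊆ O (Nat.unpair j).1
        then 1 else 0)) ≤ ENNReal.ofReal (1 / ((n : ℝ) + 1)) := by
      intro n
      refine (measure_mono ?_).trans (hO3 n)
      intro y hy
      obtain ⟨k, hk, hyk⟩ := hy n
      simp only [Nat.unpair_pair] at hk
      by_contra hcon
      have : ¬ I k ⊆ O n := fun h => hcon (h hyk)
      rw [if_neg this] at hk
      exact absurd hk (by decide)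
    have h4 : Tendsto (fun n : ℕ => ENNReal.ofReal (1 / ((n : ℝ) + 1))) atTop (𝓝 0) := by
      rw [← ENNReal.ofReal_zero]
      exact ENNReal.tendsto_ofReal tendsto_one_div_add_atTop_nhds_zero_nat
    exact le_antisymm (ge_of_tendsto h4 (Eventually.of_forall h3)) zero_le

/-- the closed set of reals with an expansion whose digit at the position `m` is one -/
def kset (m : ℕ) : Set ℝ := ofDigits '' {b : Bin | b m = 1}

theorem kset_closed (m : ℕ) : IsClosed (kset m) := by
  have h1 : IsClosed {b : Bin | b m = 1} := isClosed_eq (continuous_apply m) continuous_const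
  exact (h1.isCompact.image continuous_ofDigits).isClosed

theorem mem_kset {b : Bin} (hb : ofDigits b ∉ dyad) (m : ℕ) : ofDigits b ∈ kset m ↔ b m = 1 := by
  constructor
  · rintro ⟨b', hb', he⟩
    have : b = b' := by
      by_contra hcon
      exact hb (ofDigits_inj he.symm hcon)
    rw [this]; exact hb'
  · intro h
    exact ⟨b, h, rfl⟩

/-- **The universally null set.** `A` is the set of the reals obtained by merging, for each member
`y` of a Lebesgue nonnull set of least size, its binary digits with a code of a null `G_δ` set that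
contains the earlier members. -/
theorem exists_set {φ : ℕ → ℕ} (hφ : Function.Injective φ) :
    ∃ A Y : Set ℝ, volume Y ≠ 0 ∧
      (∀ y ∈ Y, ∃ c z : Bin, ofDigits z = y ∧ ofDigits (mrg φ c z) ∈ A) ∧
      ∀ μ : Measure ℝ, IsFiniteMeasure μ → NullSingletonClass μ → μ A = 0 := by
  classical
  let 𝒮 : Set Cardinal.{0} := {κ | ∃ Y : Set ℝ, Y ⊆ Ico 0 1 ∧ volume Y ≠ 0 ∧ #Y = κ}
  have hne : 𝒮.Nonempty := ⟨_, Ico 0 1, subset_rfl, by simp, rfl⟩
  obtain ⟨Y, hY1, hY2, hYκ⟩ := csInf_mem hne
  set κ : Cardinal.{0} := sInf 𝒮 with hκdef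
  have hκ : ∀ S : Set ℝ, S ⊆ Ico 0 1 → #S < κ → volume S = 0 := by
    intro S hS hlt
    by_contra hcon
    exact absurd (csInf_le' (show #S ∈ 𝒮 from ⟨S, hS, hcon, rfl⟩)) (not_le.2 hlt)
  let J : Type := κ.ord.ToType
  have hJ : #J = κ := by simp [J]
  obtain ⟨e⟩ : Nonempty (J ≃ Y) := Cardinal.eq.1 (hJ.trans hYκ.symm)
  have hIio : ∀ ξ : J, #(Iio ξ) < κ := by
    intro ξ
    have := Cardinal.mk_Iio_lt ξ (by simp [J])
    rwa [hJ] at this
  obtain ⟨I, hIo, hI⟩ := exists_basis
  have hcode : ∀ ξ : J, ∃ c : Bin, (∀ η < ξ, (e η : ℝ) ∈ gset I c) ∧ volume (gset I c) = 0 := by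
    intro ξ
    have h1 : volume ((fun η : J => (e η : ℝ)) '' Iio ξ) = 0 := by
      refine hκ _ ?_ (Cardinal.mk_image_le.trans_lt (hIio ξ))
      rintro _ ⟨η, _, rfl⟩
      exact hY1 (e η).2
    obtain ⟨c, hc1, hc2⟩ := exists_code hI h1
    exact ⟨c, fun η hη => hc1 ⟨η, hη, rfl⟩, hc2⟩
  choose c hc1 hc2 using hcode
  let z : J → Bin := fun ξ => Real.digits (e ξ : ℝ) 2
  have hz : ∀ ξ, ofDigits (z ξ) = (e ξ : ℝ) := fun ξ =>
    ofDigits_digits (by norm_num) (hY1 (e ξ).2)
  let a : J → ℝ := fun ξ => ofDigits (mrg φ (c ξ) (z ξ))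
  refine ⟨range a, Y, hY2, ?_, ?_⟩
  · intro y hy
    obtain ⟨ξ, hξ⟩ := e.surjective ⟨y, hy⟩
    refine ⟨c ξ, z ξ, ?_, ⟨ξ, rfl⟩⟩
    rw [hz, hξ]
  intro μ hμ hμa
  -- the Borel relation
  let T : Set (ℝ × ℝ) := {p | ∀ n, ∃ k, p.1 ∈ kset (φ (Nat.pair n k)) ∧ p.2 ∈ I k}
  have hT : MeasurableSet T := by
    have h1 : T = ⋂ n : ℕ, ⋃ k : ℕ, (kset (φ (Nat.pair n k)) ×ˢ I k) := by
      ext p
      simp only [T, mem_setOf_eq, mem_iInter, mem_iUnion, mem_prod]
    rw [h1]
    exact MeasurableSet.iInter fun n => MeasurableSet.iUnion fun k =>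
      (kset_closed _).measurableSet.prod (hIo k).measurableSet
  have hTa : ∀ ξ : J, a ξ ∉ dyad → Prod.mk (a ξ) ⁻¹' T = gset I (c ξ) := by
    intro ξ hξ
    ext y
    simp only [T, mem_preimage, mem_setOf_eq, gset]
    refine forall_congr' fun n => exists_congr fun k => ?_
    rw [mem_kset hξ, mrg_code hφ]
  let E : Set ℝ := {x | volume (Prod.mk x ⁻¹' T) = 0}
  have hE : MeasurableSet E := measurable_measure_prodMk_left hT (measurableSet_singleton 0)
  let T' : Set (ℝ × ℝ) := T ∩ (E ×ˢ (Set.univ : Set ℝ))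
  have hT' : MeasurableSet T' := hT.inter (hE.prod MeasurableSet.univ)
  have h0 : (μ.prod volume) T' = 0 := by
    rw [Measure.measure_prod_null hT']
    refine Eventually.of_forall fun x => ?_
    by_cases hx : x ∈ E
    · refine measure_mono_null ?_ hx
      intro y hy
      exact hy.1
    · have : Prod.mk x ⁻¹' T' = ∅ := by
        ext y
        simp only [T', mem_preimage, mem_inter_iff, mem_prod, mem_univ, and_true,
          mem_empty_iff_false, iff_false, not_and]
        exact fun _ => hx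
      show volume (Prod.mk x ⁻¹' T') = 0
      rw [this]; simp
  have h1 : ((volume : Measure ℝ).prod μ) (Prod.swap ⁻¹' T') = 0 := by
    rw [← Measure.prod_swap, Measure.map_apply measurable_swap (measurable_swap hT')]
    have : Prod.swap ⁻¹' (Prod.swap ⁻¹' T') = T' := by
      ext p; simp
    rw [this]; exact h0
  have h2 := (Measure.measure_prod_null (measurable_swap hT')).1 h1
  have h3 : ∃ β : J, μ ({x | (x, (e β : ℝ)) ∈ T'}) = 0 := by
    by_contra hcon
    push Not at hcon
    refine hY2 ?_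
    have h4 : Y ⊆ {y | ¬ (μ (Prod.mk y ⁻¹' (Prod.swap ⁻¹' T')) = 0)} := by
      intro y hy
      obtain ⟨β, hβ⟩ := e.surjective ⟨y, hy⟩
      have h5 := hcon β
      rw [hβ] at h5
      exact h5
    exact measure_mono_null h4 h2
  obtain ⟨β, hβ⟩ := h3
  have hsub : range a ⊆ dyad ∪ ((a '' Iio β) ∪ ({a β} ∪ {x | (x, (e β : ℝ)) ∈ T'})) := by
    rintro _ ⟨ξ, rfl⟩
    by_cases hd : a ξ ∈ dyad
    · exact Or.inl hd
    rcases lt_trichotomy ξ β with h | h | h
    · exact Or.inr (Or.inl ⟨ξ, h, rfl⟩)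
    · exact Or.inr (Or.inr (Or.inl (by rw [h]; rfl)))
    · refine Or.inr (Or.inr (Or.inr ?_))
      have h5 := hTa ξ hd
      refine ⟨?_, ?_, mem_univ _⟩
      · have h6 : (e β : ℝ) ∈ Prod.mk (a ξ) ⁻¹' T := by
          rw [h5]; exact hc1 ξ β h
        exact h6
      · show volume (Prod.mk (a ξ) ⁻¹' T) = 0
        rw [h5]; exact hc2 ξ
  refine measure_mono_null hsub (measure_union_null (dyad_countable.measure_zero μ)
    (measure_union_null ?_ (measure_union_null (measure_singleton _) hβ)))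
  exact small_null hκ μ _ (Cardinal.mk_image_le.trans_lt (hIio β))

end Pool.Agent.K1H75.Gauge
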